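import Pool.Agent.H681.GF.SM
import Pool.Graph.R_seed8.TH612.GS.GF1
import Pool.Graph.R_seed8.TH612.GS.GF3
import Pool.Graph.R_seed8.TH612.GS.GF4
import Pool.Graph.R_seed8.TH612.GS.Inv
import Pool.Graph.R_seed8.TH263.GF.A2
import Pool.Graph.R_seed8.TH236.GF.OQ
import Pool.Graph.R_seed8.TH406.GF.REPA
import Pool.Graph.R_seed8.TH738.GF.TMV
import Pool.Graph.R_seed8.TH751.GF.MVB
import Pool.Graph.R_seed8.TH576.GF.TL
import Pool.Graph.R_seed8.TH778.GF.ST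
import Pool.Graph.R_seed8.TH445.GF.DS
import Pool.Graph.R_seed8.TH914.GF.TW
import Pool.Graph.R_seed8.TH479.GF.HD
import Pool.Graph.R_seed8.TH637.GF.NA
import Pool.Graph.R_seed8.TH740.GF.GL3
import Pool.Graph.R_seed8.TH113.GF.A5
import Pool.Graph.R_seed8.TH928.GF.ZN
import Pool.Graph.R_seed8.TH521.GF.SW3
import Pool.Graph.R_seed8.TH440.GF.ZA
import Pool.Graph.R_seed8.TH406.GS.CHI
import Pool.Graph.R_seed8.TH757.GS.CONT
import Pool.Graph.R_seed8.TH811.GS.One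

set_option autoImplicit false

/-!
Project GF (library run 1, TH612/GS/GF1-4): all packages put together.
-/

namespace Pool.Agent.H681.GF

open MeasureTheory Set
open Pool.Agent.TH612.GS Pool.Agent.TH612.CF

theorem hONE : S_ONE := Pool.Agent.TH811.GS.t_ONE Pool.Agent.TH928.GS.t_MV

theorem hW : S_W :=
  t_W Pool.Agent.TH406.GF.t_REPA (Pool.Agent.TH236.GF.t_OQ Pool.Agent.TH321.GF.t_AQ) t_SM
    (Pool.Agent.TH740.GF.t_VQ Pool.Agent.TH928.GS.t_MV) Pool.Agent.TH263.GF.t_A2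
    (Pool.Agent.TH738.GF.t_TMV Pool.Agent.TH928.GS.t_MV)
    (Pool.Agent.TH576.GF.t_TL Pool.Agent.TH263.GF.t_A2 Pool.Agent.TH751.GF.t_MVB)
    (Pool.Agent.TH914.GF.t_TW Pool.Agent.TH778.GF.t_ST Pool.Agent.TH445.GF.t_DS)
    Pool.Agent.TH479.GF.t_HD

theorem hA5 : S_A5 :=
  Pool.Agent.TH113.GF.t_A5 Pool.Agent.TH757.GS.t_CONT (Pool.Agent.TH740.GF.t_GL3 Pool.Agent.TH928.GS.t_MV)

theorem mA (k : ℕ) (hk : k ≤ 4) : ∃ δ : ℝ, 0 < δ ∧ ∀ α : Fin k → ℝ, Function.Injective α →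
      ∃ T₀ : ℝ, ∀ T : ℝ, T₀ ≤ T → ∀ S : ℝ, 0 ≤ S → S ≤ T →
      mP (Fin k) T (BadA α T S (T ^ (1 - δ))) ≤ ENNReal.ofReal (T ^ (k - δ : ℝ)) :=
  mainA hW hA5 (Pool.Agent.TH928.GF.t_ZN hONE) (Pool.Agent.TH521.GF.t_SW3 Pool.Agent.TH406.GS.t_CHI)
    (Pool.Agent.TH440.GF.t_ZA hONE) Pool.Agent.TH637.GF.t_NA t_INV k hk

theorem mD (k : ℕ) (hk : k ≤ 4) : ∃ δ : ℝ, 0 < δ ∧ ∀ α : Fin k → ℝ,
      ∃ T₀ : ℝ, ∀ T : ℝ, T₀ ≤ T → ∀ S : ℝ, 0 ≤ S → S ≤ T →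
      mP (Fin k) T (BadD α T S (T ^ (1 - δ))) ≤ ENNReal.ofReal (T ^ (k - δ : ℝ)) :=
  mainD hW hA5 (Pool.Agent.TH928.GF.t_ZN hONE) Pool.Agent.TH637.GF.t_NA k hk

/-- The product measure on the cube is the restriction of the Lebesgue measure. -/
theorem mP_eq (ι : Type) [Fintype ι] (T : ℝ) :
    mP ι T = volume.restrict (Set.univ.pi fun _ : ι => Icc (0:ℝ) T) := by
  rw [mP, ← Measure.restrict_pi_pi]
  rfl

theorem to_volume {k : ℕ} {T lam lam' B B' : ℝ} {F : (Fin k → ℝ) → ℝ} (hl : lam' ≤ lam) (hB : B' ≤ B)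
    (h : mP (Fin k) T {β | (∀ i, 0 ≤ β i ∧ β i ≤ T) ∧ lam' < F β} ≤ ENNReal.ofReal B') :
    volume {β : Fin k → ℝ | (∀ i, 0 ≤ β i ∧ β i ≤ T) ∧ lam < F β} ≤ ENNReal.ofReal B := by
  rw [mP_eq, Measure.restrict_apply' (MeasurableSet.univ_pi fun _ => measurableSet_Icc)] at h
  refine (measure_mono ?_).trans (h.trans (ENNReal.ofReal_le_ofReal hB))
  intro β hβ
  refine ⟨⟨hβ.1, hl.trans_lt hβ.2⟩, ?_⟩
  intro i _
  exact ⟨(hβ.1 i).1, (hβ.1 i).2⟩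

/-- both parts, with the Lebesgue measure -/
theorem main (k : ℕ) (hk : k ≤ 4) : ∃ δ : ℝ, 0 < δ ∧ ∀ α : Fin k → ℝ, ∃ T₀ : ℝ, ∀ T : ℝ, T₀ ≤ T →
    ∀ S : ℝ, 0 ≤ S → S ≤ T →
      volume {β : Fin k → ℝ | (∀ j, 0 ≤ β j ∧ β j ≤ T) ∧
          T ^ (1 - δ) < ‖(∫ t in (0 : ℝ)..S, Zg (Sum.elim α β) t) - S * zr (Sum.elim α β)‖} ≤
        ENNReal.ofReal (T ^ (k - δ)) ∧
      (Function.Injective α →
        volume {β : Fin k → ℝ | (∀ j, 0 ≤ β j ∧ β j ≤ T) ∧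
            T ^ (1 - δ) < ‖∫ t in (0 : ℝ)..S, (Zg (Sum.elim α β) t - ((Nat.factorial k : ℂ) ^ 2)⁻¹ *
              Qs t (fun i => ((Sum.elim α β i : ℝ) : ℂ)))‖} ≤
          ENNReal.ofReal (T ^ (k - δ))) := by
  obtain ⟨δ₁, h1, hA⟩ := mA k hk
  obtain ⟨δ₂, h2, hD⟩ := mD k hk
  refine ⟨min δ₁ δ₂, lt_min h1 h2, fun α => ?_⟩
  obtain ⟨T₂, hD⟩ := hD α
  by_cases hα : Function.Injective α
  · obtain ⟨T₁, hA⟩ := hA α hα
    refine ⟨max (max T₁ T₂) 1, fun T hT S hS hST => ?_⟩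
    have t1 : T₁ ≤ T := (le_max_left _ _).trans ((le_max_left _ _).trans hT)
    have t2 : T₂ ≤ T := (le_max_right _ _).trans ((le_max_left _ _).trans hT)
    have t3 : 1 ≤ T := (le_max_right _ _).trans hT
    constructor
    · refine to_volume (Real.rpow_le_rpow_of_exponent_le t3 ?_) (Real.rpow_le_rpow_of_exponent_le t3 ?_)
        (hD T t2 S hS hST)
      · linarith [min_le_right δ₁ δ₂]
      · linarith [min_le_right δ₁ δ₂]
    · intro _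
      refine to_volume (Real.rpow_le_rpow_of_exponent_le t3 ?_) (Real.rpow_le_rpow_of_exponent_le t3 ?_)
        (hA T t1 S hS hST)
      · linarith [min_le_left δ₁ δ₂]
      · linarith [min_le_left δ₁ δ₂]
  · refine ⟨max T₂ 1, fun T hT S hS hST => ?_⟩
    have t2 : T₂ ≤ T := (le_max_left _ _).trans hT
    have t3 : 1 ≤ T := (le_max_right _ _).trans hT
    constructor
    · refine to_volume (Real.rpow_le_rpow_of_exponent_le t3 ?_) (Real.rpow_le_rpow_of_exponent_le t3 ?_)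
        (hD T t2 S hS hST)
      · linarith [min_le_right δ₁ δ₂]
      · linarith [min_le_right δ₁ δ₂]
    · intro h
      exact absurd h hα

end Pool.Agent.H681.GF
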