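import Pool.Graph.R_seed8.TH321.GF.AQ
import Pool.Graph.R_seed8.TH740.GF.VQ
import Pool.Graph.R_seed8.TH928.GS.MV

set_option autoImplicit false

/-!
The second moment of the zeta function, `∫_0^{2T} |ζ(1/2 + iu)|² du ≤ C T log T` (the statement `S_SM` of the
library project GS), from the partial sums.
-/

namespace Pool.Agent.H681.GF

open Complex Filter Topology MeasureTheory Set
open Pool.Agent.TH612.GS

theorem t_SM : S_SM := by
  obtain ⟨C, T₀, hC, hT₀, h⟩ := Pool.Agent.TH740.GF.t_VQ Pool.Agent.TH928.GS.t_MV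
  refine ⟨2 * C + 400, max T₀ 3, by positivity, le_max_of_le_left hT₀, fun T hT => ?_⟩
  have hT1 : T₀ ≤ T := (le_max_left _ _).trans hT
  have hT3 : 3 ≤ T := (le_max_right _ _).trans hT
  have hT0 : 0 < T := by linarith
  set X : ℕ := ⌈2 * T⌉₊ with hXd
  have hX1 : 2 * T ≤ X := Nat.le_ceil _
  have hX2 : (X : ℝ) ≤ 4 * T := by
    have := Nat.ceil_lt_add_one (show (0:ℝ) ≤ 2 * T by linarith)
    rw [← hXd] at this
    linarith
  have hX0 : (0 : ℝ) < X := by linarith
  have hX : 1 ≤ X := by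
    have : 0 < X := by exact_mod_cast hX0
    omega
  have hVQ := h T X hT1 hX hX2
  set p := Real.sqrt T with hp
  have hp0 : 0 < p := Real.sqrt_pos.2 hT0
  have hp2 : p ^ 2 = T := Real.sq_sqrt hT0.le
  have hXp : Real.sqrt X ≤ 2 * p := by
    apply Real.sqrt_le_iff.2
    refine ⟨by positivity, hX2.trans ?_⟩
    rw [mul_pow, hp2]; norm_num
  have hpX : p ≤ Real.sqrt X := Real.sqrt_le_sqrt (by linarith)
  have hpt : ∀ u ∈ Ioc (0 : ℝ) (2 * T), ‖z u‖ ^ 2 ≤ 2 * ‖PN X u‖ ^ 2 + (144 * T / (1 + u) ^ 2 + 16 / T) := by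
    intro u hu
    have hu1 : 0 < 1 + u := by linarith [hu.1]
    have a0 := Pool.Agent.TH321.GF.AQ_pw u X hX hu.1 (by linarith [hu.2])
    have a1 : 3 * Real.sqrt X / (1 + u) ≤ 6 * p / (1 + u) :=
      div_le_div_of_nonneg_right (by linarith) hu1.le
    have a2 : 3 / (2 * Real.sqrt X) ≤ 2 / p := by
      rw [div_le_div_iff₀ (by positivity) hp0]
      nlinarith
    have a3 : ‖z u‖ ≤ ‖PN X u‖ + (6 * p / (1 + u) + 2 / p) := by
      have : z u = PN X u + (z u - PN X u) := by ring
      rw [this]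
      refine (norm_add_le _ _).trans ?_
      linarith
    have a4 : ‖z u‖ ^ 2 ≤ (‖PN X u‖ + (6 * p / (1 + u) + 2 / p)) ^ 2 :=
      pow_le_pow_left₀ (norm_nonneg _) a3 2
    have b1 : (6 * p / (1 + u)) ^ 2 = 36 * T / (1 + u) ^ 2 := by rw [div_pow, mul_pow, hp2]; norm_num
    have b2 : (2 / p) ^ 2 = 4 / T := by rw [div_pow, hp2]; norm_num
    have c1 : (‖PN X u‖ + (6 * p / (1 + u) + 2 / p)) ^ 2 ≤
        2 * ‖PN X u‖ ^ 2 + 4 * (6 * p / (1 + u)) ^ 2 + 4 * (2 / p) ^ 2 := by
      nlinarith [sq_nonneg (‖PN X u‖ - (6 * p / (1 + u) + 2 / p)), sq_nonneg (6 * p / (1 + u) - 2 / p)]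
    rw [b1, b2] at c1
    refine a4.trans (c1.trans (le_of_eq ?_))
    ring
  have hcont : ContinuousOn (fun u : ℝ => 144 * T / (1 + u) ^ 2 + 16 / T) (Icc 0 (2 * T)) := by
    apply ContinuousOn.add _ continuousOn_const
    apply ContinuousOn.div continuousOn_const ((continuousOn_const.add continuousOn_id).pow 2)
    intro u hu
    have h0 : (0 : ℝ) ≤ u := hu.1
    exact pow_ne_zero 2 (ne_of_gt (show (0 : ℝ) < 1 + u by linarith))
  have hFTC : ∫ u in (0:ℝ)..(2 * T), (144 * T / (1 + u) ^ 2 + 16 / T)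
      = (-(144 * T / (1 + 2 * T)) + 16 / T * (2 * T)) - (-(144 * T / (1 + 0)) + 16 / T * 0) := by
    apply intervalIntegral.integral_eq_sub_of_hasDerivAt
      (f := fun u => -(144 * T / (1 + u)) + 16 / T * u)
    · intro u hu
      rw [uIcc_of_le (by linarith)] at hu
      have hu1 : 1 + u ≠ 0 := by linarith [hu.1]
      have d1 : HasDerivAt (fun u : ℝ => -(144 * T / (1 + u))) (144 * T / (1 + u) ^ 2) u := by
        have := (((hasDerivAt_id u).const_add 1).inv hu1).const_mul (144 * T)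
        refine ((this.neg).congr_deriv ?_).congr_of_eventuallyEq (Eventually.of_forall fun v => ?_)
        · simp; ring
        · simp [div_eq_mul_inv]
      have d2 := d1.add ((hasDerivAt_id u).const_mul (16 / T))
      refine d2.congr_deriv ?_
      simp
    · apply ContinuousOn.intervalIntegrable
      rw [uIcc_of_le (by linarith)]
      exact hcont
  have hPc : Continuous fun u : ℝ => ‖PN X u‖ ^ 2 := (PN_cont X).norm.pow 2
  have hmono : ∫ u in (0:ℝ)..(2 * T), ‖z u‖ ^ 2 ≤
      ∫ u in (0:ℝ)..(2 * T), (2 * ‖PN X u‖ ^ 2 + (144 * T / (1 + u) ^ 2 + 16 / T)) := by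
    rw [intervalIntegral.integral_of_le (by linarith), intervalIntegral.integral_of_le (by linarith)]
    apply integral_mono_of_nonneg
    · exact Eventually.of_forall fun u => by positivity
    · exact (((hPc.const_mul 2).continuousOn.add hcont).integrableOn_Icc).mono_set Ioc_subset_Icc_self
    · rw [EventuallyLE, ae_restrict_iff' measurableSet_Ioc]
      exact Eventually.of_forall fun u hu => hpt u hu
  refine hmono.trans ?_
  rw [intervalIntegral.integral_add ((hPc.const_mul 2).intervalIntegrable _ _)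
    (by
      apply ContinuousOn.intervalIntegrable
      rw [uIcc_of_le (by linarith)]
      exact hcont), hFTC, intervalIntegral.integral_const_mul]
  have hlog1 : 1 ≤ Real.log T := by
    rw [Real.le_log_iff_exp_le hT0]
    have := Real.exp_one_lt_d9
    linarith
  have e2 : 16 / T * (2 * T) = 32 := by field_simp; norm_num
  rw [e2]
  have e3 : 0 ≤ 144 * T / (1 + 2 * T) := by positivity
  have e4 : 144 * T / (1 + 0) = 144 * T := by norm_num
  rw [e4]
  have h9 : T ≤ T * Real.log T := by nlinarith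
  nlinarith

end Pool.Agent.H681.GF
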